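import Pool.Agent.N483.KM.StmW

/-!
# Convergence of the weights `gM ^ M`
-/

set_option autoImplicit false

namespace Pool.Agent.N334.KM

open MeasureTheory Set Filter Topology
open scoped ENNReal InnerProductSpace
open Pool.Agent.R754.KG (E)
open Pool.Agent.Y506.RG (Adm)
open Pool.Agent.N483.KM

variable {n : ℕ}

lemma gM_nonneg (w : E n → ℝ) (M : ℕ) (x : E n) : 0 ≤ gM w M x := by
  unfold gM
  split_ifs
  · exact le_max_right _ _
  · exact le_rfl

lemma gM_meas {w : E n → ℝ} (hw : Measurable w) (M : ℕ) : Measurable (gM w M) := by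
  unfold gM
  refine Measurable.ite (measurableSet_lt measurable_const hw) ?_ measurable_const
  exact (measurable_const.add ((Real.measurable_log.comp hw).div_const _)).max measurable_const

lemma gM_zero {w : E n → ℝ} {x : E n} (h : ¬ 0 < w x) {M : ℕ} (hM : 1 ≤ M) : gM w M x ^ M = 0 := by
  unfold gM
  rw [if_neg h]
  exact zero_pow (by omega)

lemma gM_pow_le {w : E n → ℝ} (h0 : ∀ x, 0 ≤ w x) {M : ℕ} (hM : 1 ≤ M) (x : E n) :
    gM w M x ^ M ≤ w x := by
  have hM0 : (M : ℝ) ≠ 0 := by positivity
  by_cases h : 0 < w x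
  · unfold gM
    rw [if_pos h]
    rcases le_total (1 + Real.log (w x) / M) 0 with h1 | h1
    · rw [max_eq_right h1, zero_pow (by omega)]; exact h.le
    · rw [max_eq_left h1]
      calc (1 + Real.log (w x) / M) ^ M ≤ Real.exp (Real.log (w x) / M) ^ M := by
            refine pow_le_pow_left₀ h1 ?_ M
            have := Real.add_one_le_exp (Real.log (w x) / M)
            linarith
        _ = w x := by
            rw [← Real.exp_nat_mul, mul_div_cancel₀ _ hM0, Real.exp_log h]
  · rw [gM_zero h hM]; exact h0 x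

lemma gM_eventually {w : E n → ℝ} {x : E n} (h : 0 < w x) :
    ∀ᶠ M : ℕ in atTop, gM w M x = 1 + Real.log (w x) / M := by
  have h1 : Tendsto (fun M : ℕ => 1 + Real.log (w x) / (M : ℝ)) atTop (𝓝 (1 + 0)) :=
    (tendsto_const_div_atTop_nhds_zero_nat _).const_add 1
  have h2 := h1.eventually (lt_mem_nhds (a := 0) (by norm_num))
  filter_upwards [h2] with M hM
  unfold gM
  rw [if_pos h, max_eq_left hM.le]

lemma gM_tendsto {w : E n → ℝ} (h0 : ∀ x, 0 ≤ w x) (x : E n) :
    Tendsto (fun M : ℕ => gM w M x ^ M) atTop (𝓝 (w x)) := by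
  by_cases h : 0 < w x
  · have h1 := Real.tendsto_one_add_div_pow_exp (Real.log (w x))
    rw [Real.exp_log h] at h1
    refine h1.congr' ?_
    filter_upwards [gM_eventually h] with M hM
    rw [hM]
  · have h1 : w x = 0 := le_antisymm (not_lt.mp h) (h0 x)
    rw [h1]
    refine tendsto_const_nhds.congr' ?_
    filter_upwards [eventually_ge_atTop 1] with M hM
    rw [gM_zero h hM]

lemma sqrt_integrable {w : E n → ℝ} (hw : LW w) : Integrable fun x => Real.sqrt (w x) := by
  obtain ⟨x₀, hx₀⟩ : ∃ x₀, 0 < w x₀ := by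
    by_contra hcon
    push Not at hcon
    have h1 : ∫ x, w x ≤ 0 := integral_nonpos hcon
    exact absurd hw.adm.pos (not_lt.mpr h1)
  have h1 : Integrable fun x : E n => w ((1 / 2 : ℝ) • x + (1 / 2 : ℝ) • x₀) := by
    have h2 : Integrable fun x : E n => w (x + (1 / 2 : ℝ) • x₀) := hw.adm.one.comp_add_right _
    exact (integrable_comp_smul_iff volume (fun x : E n => w (x + (1 / 2 : ℝ) • x₀))
      (by norm_num : (1 / 2 : ℝ) ≠ 0)).mpr h2
  refine (h1.const_mul (1 / Real.sqrt (w x₀))).mono' (hw.adm.meas.sqrt).aestronglyMeasurable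
    (Eventually.of_forall fun x => ?_)
  rw [Real.norm_eq_abs, abs_of_nonneg (Real.sqrt_nonneg _)]
  have h3 := hw.lc x x₀ (1 / 2) (by norm_num) (by norm_num)
  norm_num at h3
  rw [← Real.sqrt_eq_rpow, ← Real.sqrt_eq_rpow] at h3
  have h4 : 0 < Real.sqrt (w x₀) := Real.sqrt_pos.mpr hx₀
  rw [one_div_mul_eq_div, le_div_iff₀ h4]
  simpa using h3

/-- the dominating function -/
lemma dom {w : E n → ℝ} (h0 : ∀ x, 0 ≤ w x) {B : ℝ} (hB : ∀ x, w x ≤ B) {M : ℕ} (hM : 1 ≤ M)
    (x : E n) : (M : ℝ) * ((gM w M x - 1) ^ 2 * gM w M x ^ M) ≤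
      (Real.log B) ^ 2 * w x + Real.sqrt (w x) := by
  have hM0 : (0 : ℝ) < M := by positivity
  have hM1 : (1 : ℝ) ≤ M := by exact_mod_cast hM
  have hs := Real.sqrt_nonneg (w x)
  by_cases h : 0 < w x
  · have hle := gM_pow_le h0 hM x
    have hnn : 0 ≤ gM w M x ^ M := pow_nonneg (gM_nonneg w M x) M
    rcases le_total (1 + Real.log (w x) / M) 0 with h1 | h1
    · have : gM w M x = 0 := by
        unfold gM; rw [if_pos h, max_eq_right h1]
      rw [this, zero_pow (by omega), mul_zero, mul_zero]
      have := mul_nonneg (sq_nonneg (Real.log B)) h.le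
      linarith
    · have hg : gM w M x = 1 + Real.log (w x) / M := by
        unfold gM; rw [if_pos h, max_eq_left h1]
      set l := Real.log (w x) with hl
      have e1 : (M : ℝ) * ((gM w M x - 1) ^ 2 * gM w M x ^ M) = (l ^ 2 / M) * gM w M x ^ M := by
        rw [← mul_assoc]
        congr 1
        rw [hg]; field_simp; ring
      rw [e1]
      rcases le_total 0 l with h2 | h2
      · have h3 : l ≤ Real.log B := Real.log_le_log h (hB x)
        have h4 : l ^ 2 / M ≤ (Real.log B) ^ 2 := by
          rw [div_le_iff₀ hM0]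
          have h5 : l ^ 2 ≤ (Real.log B) ^ 2 := pow_le_pow_left₀ h2 h3 2
          nlinarith [sq_nonneg (Real.log B)]
        have h5 : l ^ 2 / M * gM w M x ^ M ≤ (Real.log B) ^ 2 * w x :=
          mul_le_mul h4 hle hnn (sq_nonneg _)
        linarith
      · have h3 : -l ≤ M := by
          have : 0 ≤ (1 + l / M) * M := mul_nonneg h1 hM0.le
          have e : (1 + l / M) * M = M + l := by field_simp
          linarith
        have h4 : l ^ 2 / M ≤ -l := by
          rw [div_le_iff₀ hM0]
          nlinarith
        have h5 : l ^ 2 / M * gM w M x ^ M ≤ -l * w x :=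
          mul_le_mul h4 hle hnn (by linarith)
        have h6 : -l * w x ≤ Real.sqrt (w x) := by
          have e2 : Real.sqrt (w x) * Real.sqrt (w x) = w x := Real.mul_self_sqrt h.le
          have e3 : Real.sqrt (w x) = Real.exp (l / 2) := by
            rw [Real.sqrt_eq_rpow, Real.rpow_def_of_pos h]
            congr 1
            ring
          have h7 : -l * Real.sqrt (w x) ≤ 1 := by
            rw [e3]
            have h8 := Real.quadratic_le_exp_of_nonneg (x := -l / 2) (by linarith)
            have h9 : Real.exp (-l / 2) * Real.exp (l / 2) = 1 := by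
              rw [← Real.exp_add]; norm_num
              ring
            have h10 : -l ≤ Real.exp (-l / 2) := by
              nlinarith [sq_nonneg (-l / 2 - 1)]
            calc -l * Real.exp (l / 2) ≤ Real.exp (-l / 2) * Real.exp (l / 2) :=
                  mul_le_mul_of_nonneg_right h10 (Real.exp_pos _).le
              _ = 1 := h9
          calc -l * w x = (-l * Real.sqrt (w x)) * Real.sqrt (w x) := by
                rw [mul_assoc, e2]
            _ ≤ 1 * Real.sqrt (w x) := mul_le_mul_of_nonneg_right h7 hs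
            _ = Real.sqrt (w x) := one_mul _
        have h7 := mul_nonneg (sq_nonneg (Real.log B)) h.le
        linarith
  · rw [gM_zero h hM, mul_zero, mul_zero]
    have := mul_nonneg (sq_nonneg (Real.log B)) (h0 x)
    linarith

theorem t_WMC : S_WMC := by
  intro n w hw
  have h0 := hw.adm.nonneg
  obtain ⟨B₀, hB₀⟩ := hw.bdd
  set B := max B₀ 1 with hBdef
  have hB : ∀ x, w x ≤ B := fun x => (hB₀ x).trans (le_max_left _ _)
  have hB1 : 1 ≤ B := le_max_right _ _
  have hmeas : ∀ M : ℕ, Measurable fun x => gM w M x ^ M := fun M => (gM_meas hw.adm.meas M).pow_const M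
  have hnn : ∀ (M : ℕ) (x : E n), 0 ≤ gM w M x ^ M := fun M x => pow_nonneg (gM_nonneg w M x) M
  have hmul : ∀ x : E n, 0 ≤ 1 + ‖x‖ ^ 2 := fun x => by positivity
  have hmass : Tendsto (fun M : ℕ => ∫ x, gM w M x ^ M) atTop (𝓝 (∫ x, w x)) := by
    refine tendsto_integral_filter_of_dominated_convergence w
      (Eventually.of_forall fun M => (hmeas M).aestronglyMeasurable) ?_ hw.adm.one
      (Eventually.of_forall fun x => gM_tendsto h0 x)
    filter_upwards [eventually_ge_atTop 1] with M hM
    refine Eventually.of_forall fun x => ?_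
    rw [Real.norm_eq_abs, abs_of_nonneg (hnn M x)]
    exact gM_pow_le h0 hM x
  have hsq : ∀ M : ℕ, Measurable fun x => (gM w M x - 1) ^ 2 * gM w M x ^ M := fun M =>
    (((gM_meas hw.adm.meas M).sub_const 1).pow_const 2).mul (hmeas M)
  have hsn : ∀ (M : ℕ) (x : E n), 0 ≤ (gM w M x - 1) ^ 2 * gM w M x ^ M := fun M x =>
    mul_nonneg (sq_nonneg _) (hnn M x)
  have hD : Integrable fun x => (Real.log B) ^ 2 * w x + Real.sqrt (w x) :=
    (hw.adm.one.const_mul _).add (sqrt_integrable hw)
  refine ⟨?_, fun M hM x => gM_pow_le h0 hM x, ?_, ?_, ?_⟩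
  · filter_upwards [eventually_ge_atTop 1, hmass.eventually (lt_mem_nhds hw.adm.pos)] with M hM hp
    refine ⟨hnn M, ?_, hp, hmeas M⟩
    refine hw.adm.int.mono' ?_ (Eventually.of_forall fun x => ?_)
    · exact ((measurable_const.add (measurable_norm.pow_const 2)).mul (hmeas M)).aestronglyMeasurable
    · rw [Real.norm_eq_abs, abs_of_nonneg (mul_nonneg (hmul x) (hnn M x))]
      exact mul_le_mul_of_nonneg_left (gM_pow_le h0 hM x) (hmul x)
  · have h1 : Tendsto (fun M : ℕ => ∫ x : E n, (1 + ‖x‖ ^ 2) * |gM w M x ^ M - w x|) atTop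
        (𝓝 (∫ _x : E n, (0 : ℝ))) := by
      refine tendsto_integral_filter_of_dominated_convergence (fun x => (1 + ‖x‖ ^ 2) * w x) ?_ ?_
        hw.adm.int ?_
      · exact Eventually.of_forall fun M => ((measurable_const.add (measurable_norm.pow_const 2)).mul
          ((hmeas M).sub hw.adm.meas).abs).aestronglyMeasurable
      · filter_upwards [eventually_ge_atTop 1] with M hM
        refine Eventually.of_forall fun x => ?_
        rw [Real.norm_eq_abs, abs_of_nonneg (mul_nonneg (hmul x) (abs_nonneg _))]
        refine mul_le_mul_of_nonneg_left ?_ (hmul x)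
        rw [abs_le]
        have h2 := gM_pow_le h0 hM x
        have h3 := hnn M x
        have h4 := h0 x
        constructor <;> linarith
      · refine Eventually.of_forall fun x => ?_
        have h2 : Tendsto (fun M : ℕ => (1 + ‖x‖ ^ 2) * |gM w M x ^ M - w x|) atTop
            (𝓝 ((1 + ‖x‖ ^ 2) * |w x - w x|)) := (((gM_tendsto h0 x).sub_const _).abs).const_mul _
        simpa using h2
    simpa using h1
  · filter_upwards [eventually_ge_atTop 1] with M hM
    refine hD.mono' (hsq M).aestronglyMeasurable (Eventually.of_forall fun x => ?_)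
    rw [Real.norm_eq_abs, abs_of_nonneg (hsn M x)]
    have h1 := dom h0 hB hM x
    have h2 : (1 : ℝ) ≤ M := by exact_mod_cast hM
    have h3 := hsn M x
    nlinarith
  · have h1 : Tendsto (fun M : ℕ => ∫ x : E n, (M : ℝ) * ((gM w M x - 1) ^ 2 * gM w M x ^ M)) atTop
        (𝓝 (∫ _x : E n, (0 : ℝ))) := by
      refine tendsto_integral_filter_of_dominated_convergence
        (fun x => (Real.log B) ^ 2 * w x + Real.sqrt (w x)) ?_ ?_ hD ?_
      · exact Eventually.of_forall fun M => ((hsq M).const_mul _).aestronglyMeasurable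
      · filter_upwards [eventually_ge_atTop 1] with M hM
        refine Eventually.of_forall fun x => ?_
        rw [Real.norm_eq_abs, abs_of_nonneg (mul_nonneg (Nat.cast_nonneg M) (hsn M x))]
        exact dom h0 hB hM x
      · refine Eventually.of_forall fun x => ?_
        by_cases h : 0 < w x
        · have h2 : Tendsto (fun M : ℕ => ((Real.log (w x)) ^ 2 / (M : ℝ)) * gM w M x ^ M) atTop
              (𝓝 (0 * w x)) :=
            (tendsto_const_div_atTop_nhds_zero_nat _).mul (gM_tendsto h0 x)
          rw [zero_mul] at h2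
          refine h2.congr' ?_
          filter_upwards [gM_eventually h, eventually_ge_atTop 1] with M hM hM1
          have hM0 : (M : ℝ) ≠ 0 := by positivity
          rw [← mul_assoc]
          congr 1
          rw [hM]; field_simp; ring
        · refine tendsto_const_nhds.congr' ?_
          filter_upwards [eventually_ge_atTop 1] with M hM
          rw [gM_zero h hM, mul_zero, mul_zero]
    have h2 : ∀ M : ℕ, ∫ x : E n, (M : ℝ) * ((gM w M x - 1) ^ 2 * gM w M x ^ M) =
        (M : ℝ) * ∫ x : E n, (gM w M x - 1) ^ 2 * gM w M x ^ M := fun M => integral_const_mul _ _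
    simp only [h2] at h1
    simpa using h1

end Pool.Agent.N334.KM
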